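import Pool.Agent.Helper86.SG.Defs
import Pool.Agent.Helper33.SG.SUN

/-! # SG, package BOUND (third, parallel version) -/

set_option autoImplicit false

open Finset

namespace Pool.Agent.Helper14.SG

open _root_.SJ (supp IsV dot fib)
open _root_.SG (BB IndJ Clash HH LL EX Str SUMStm UPStm CLSStm LOWStm RULStm SRCStm BOUNDStm DD cP exP)

theorem card_of_mem_EX {n k d : ℕ} {F : Finset (Fin n → ℤ)} {S : Finset (Fin n)}
    (h : S ∈ EX k d F) : #S = k := by
  classical
  unfold EX HH LL at h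
  rw [mem_union, mem_filter, mem_filter] at h
  rcases h with h | h
  · exact (mem_powersetCard.1 h.1).2
  · exact (mem_powersetCard.1 h.1).2

theorem sum_exP {n k d : ℕ} (F : Finset (Fin n → ℤ)) (s : ℕ) (U : Finset (Finset (Fin n)))
    (hU : ∀ A ∈ U, #A = s) :
    ∑ A ∈ U, #(exP k d F A) ≤ k.choose s * #(EX k d F) := by
  classical
  have e1 : ∀ A ∈ U, #(exP k d F A) = ∑ S ∈ EX k d F, if A ⊆ S then 1 else 0 := by
    intro A _
    rw [← card_filter]
    unfold exP
    congr 1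
  rw [sum_congr rfl e1, sum_comm]
  calc ∑ S ∈ EX k d F, ∑ A ∈ U, (if A ⊆ S then 1 else 0)
      ≤ ∑ _S ∈ EX k d F, k.choose s := by
        refine sum_le_sum fun S hS => ?_
        rw [← card_filter]
        have : U.filter (fun A => A ⊆ S) ⊆ powersetCard s S := by
          intro A hA
          rw [mem_filter] at hA
          exact mem_powersetCard.2 ⟨hA.2, hU A hA.1⟩
        refine (card_le_card this).trans ?_
        rw [card_powersetCard, card_of_mem_EX hS]
    _ = k.choose s * #(EX k d F) := by rw [sum_const, smul_eq_mul]; ring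

theorem BOUND (hSUM : SUMStm) (hUP : UPStm) (hLOW : LOWStm) (hCLS : CLSStm) (hSRC : SRCStm)
    (hRUL : RULStm) : BOUNDStm := by
  classical
  intro k d hk
  obtain ⟨s, hs⟩ : ∃ s, s = 2 * d + 2 := ⟨_, rfl⟩
  have hsk : s < k := by omega
  obtain ⟨W, hW⟩ : ∃ W, W = 1 + 2 ^ k := ⟨_, rfl⟩
  obtain ⟨m, hm⟩ : ∃ m, m = 2 * (2 ^ s * (k - s) ^ 2 * k.choose s * W) := ⟨_, rfl⟩
  obtain ⟨C, hC⟩ : ∃ C, C = W * (2 * m.choose (k - s)) := ⟨_, rfl⟩
  obtain ⟨B, hB⟩ := Pool.Agent.Helper33.SG.sun k s C hsk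
  refine ⟨C * B, fun n F hF hbig => ?_⟩
  have hk2 : 0 < k - s := by omega
  have hW0 : 0 < W := by rw [hW]; positivity
  have hcs : 0 < k.choose s := Nat.choose_pos hsk.le
  have hm0 : 0 < m := by rw [hm]; positivity
  obtain ⟨h, hh⟩ : ∃ h, h = #(HH k d F) := ⟨_, rfl⟩
  have h1 : #(LL k d F) ≤ 2 ^ k * h := by
    have h0 := hSUM n k d F hk hF.1
    rw [← hh] at h0
    omega
  have h2 : #(EX k d F) ≤ W * h := by
    have : #(EX k d F) ≤ #(HH k d F) + #(LL k d F) := by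
      unfold EX
      exact card_union_le _ _
    calc _ ≤ _ := this
      _ ≤ h + 2 ^ k * h := by omega
      _ = W * h := by rw [hW]; ring
  -- the clashing sets
  set CP : Finset (Finset (Fin n)) :=
    univ.filter (fun A => #A = s ∧ ∃ v ∈ F, Clash F v A) with hCP
  have hcov : HH k d F ⊆ CP.biUnion (fun A => cP F A) := by
    intro S hS
    unfold HH at hS
    rw [mem_filter] at hS
    obtain ⟨-, v, hv, hvS, A, hA, hcl⟩ := hS
    rw [mem_biUnion]
    refine ⟨A, ?_, ?_⟩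
    · rw [hCP, mem_filter]
      exact ⟨mem_univ _, hA.trans hs.symm, v, hv, hcl⟩
    · unfold cP
      rw [mem_image]
      exact ⟨v, mem_filter.2 ⟨hv, hcl⟩, hvS⟩
  have h4 : h ≤ ∑ A ∈ CP, #(cP F A) := by
    rw [hh]
    exact (card_le_card hcov).trans card_biUnion_le
  have key : ∀ A ∈ CP, (m * #(cP F A) ≤ 2 ^ s * (k - s) ^ 2 * #(exP k d F A)) ∨
      #(cP F A) ≤ m.choose (k - s) := by
    intro A hA
    rw [hCP, mem_filter] at hA
    obtain ⟨-, hAs, v, hv, hcl⟩ := hA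
    have hAs' : #A = 2 * d + 2 := hAs.trans hs
    obtain ⟨μ, hμ, hlow⟩ := hLOW n k d F hk hF.1 A hAs' v hv hcl
    obtain ⟨hu1, hu2⟩ := hUP n k d F hk hF A hAs' μ hμ
    rw [← hs] at hu1 hu2 hlow
    rcases Nat.lt_or_ge μ m with hc | hc
    · right
      exact hu2.trans (Nat.choose_le_choose _ hc.le)
    · left
      obtain ⟨ν, rfl⟩ : ∃ ν, μ = ν + 1 := ⟨μ - 1, by omega⟩
      obtain ⟨j, hj⟩ : ∃ j, k - s = j + 1 := ⟨k - s - 1, by omega⟩
      rw [hj] at hu1 hlow ⊢
      have e3 : (ν + 1) * ν.choose j = (ν + 1).choose (j + 1) * (j + 1) :=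
        Nat.add_one_mul_choose_eq ν j
      calc m * #(cP F A) ≤ (ν + 1) * #(cP F A) := Nat.mul_le_mul_right _ hc
        _ ≤ (ν + 1) * (2 ^ s * ((j + 1) * (ν + 1 - 1).choose (j + 1 - 1))) :=
            Nat.mul_le_mul_left _ hu1
        _ = 2 ^ s * (j + 1) * ((ν + 1) * ν.choose j) := by
            rw [Nat.add_sub_cancel, Nat.add_sub_cancel]; ring
        _ = 2 ^ s * (j + 1) ^ 2 * (ν + 1).choose (j + 1) := by rw [e3]; ring
        _ ≤ 2 ^ s * (j + 1) ^ 2 * #(exP k d F A) := Nat.mul_le_mul_left _ hlow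
  set SM := CP.filter (fun A => #(cP F A) ≤ m.choose (k - s)) with hSM
  set BG := CP.filter (fun A => ¬ #(cP F A) ≤ m.choose (k - s)) with hBG
  have hsplit : ∑ A ∈ CP, #(cP F A) = ∑ A ∈ SM, #(cP F A) + ∑ A ∈ BG, #(cP F A) := by
    rw [hSM, hBG]
    exact (sum_filter_add_sum_filter_not _ _ _).symm
  have hsm : ∑ A ∈ SM, #(cP F A) ≤ #SM * m.choose (k - s) := by
    calc ∑ A ∈ SM, #(cP F A) ≤ ∑ _A ∈ SM, m.choose (k - s) := by
          refine sum_le_sum fun A hA => ?_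
          rw [hSM, mem_filter] at hA
          exact hA.2
      _ = #SM * m.choose (k - s) := by rw [sum_const, smul_eq_mul]
  have hbg : m * ∑ A ∈ BG, #(cP F A) ≤ 2 ^ s * (k - s) ^ 2 * (k.choose s * #(EX k d F)) := by
    rw [mul_sum]
    calc ∑ A ∈ BG, m * #(cP F A) ≤ ∑ A ∈ BG, 2 ^ s * (k - s) ^ 2 * #(exP k d F A) := by
          refine sum_le_sum fun A hA => ?_
          rw [hBG, mem_filter] at hA
          rcases key A hA.1 with h' | h'
          · exact h'
          · exact absurd h' hA.2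
      _ = 2 ^ s * (k - s) ^ 2 * ∑ A ∈ BG, #(exP k d F A) := by rw [mul_sum]
      _ ≤ _ := Nat.mul_le_mul_left _ (sum_exP F s BG (fun A hA => by
          rw [hBG, mem_filter, hCP, mem_filter] at hA
          exact hA.1.2.1))
  have hbg2 : 2 * ∑ A ∈ BG, #(cP F A) ≤ h := by
    refine Nat.le_of_mul_le_mul_left ?_ hm0
    calc m * (2 * ∑ A ∈ BG, #(cP F A)) = 2 * (m * ∑ A ∈ BG, #(cP F A)) := by ring
      _ ≤ 2 * (2 ^ s * (k - s) ^ 2 * (k.choose s * #(EX k d F))) := Nat.mul_le_mul_left _ hbg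
      _ ≤ 2 * (2 ^ s * (k - s) ^ 2 * (k.choose s * (W * h))) := by gcongr
      _ = m * h := by rw [hm]; ring
  have h5 : h ≤ 2 * (#SM * m.choose (k - s)) := by omega
  have h6 : #(EX k d F) ≤ C * #SM := by
    calc #(EX k d F) ≤ W * h := h2
      _ ≤ W * (2 * (#SM * m.choose (k - s))) := Nat.mul_le_mul_left _ h5
      _ = C * #SM := by rw [hC]; ring
  refine h6.trans (Nat.mul_le_mul_left _ ?_)
  -- the sunflower step
  have hstr : ∀ S : Finset (Fin n), #S = k → S ∉ EX k d F → ∃ f c, Str k d F S f c :=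
    fun S hS hE => (hSRC n k d F hk hF.1 S hS).2 hE
  have hHE : ∀ S : Finset (Fin n), S ∉ EX k d F → S ∉ HH k d F := by
    intro S hS hH
    apply hS
    unfold EX
    exact mem_union_left _ hH
  rcases Nat.eq_zero_or_pos n with hn | hn
  · -- no `s`-sets
    have : #SM = 0 := by
      rw [card_eq_zero, eq_empty_iff_forall_notMem]
      intro A hA
      rw [hSM, mem_filter, hCP, mem_filter] at hA
      have h7 : #A ≤ Fintype.card (Fin n) := card_le_univ A
      rw [Fintype.card_fin] at h7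
      have := hA.1.2.1
      omega
    omega
  have hne : Nonempty (Fin n) := ⟨⟨0, hn⟩⟩
  have hch : ∀ S : Finset (Fin n), ∃ f : Fin n, #S = k → S ∉ EX k d F → ∃ c, Str k d F S f c := by
    intro S
    by_cases h8 : #S = k ∧ S ∉ EX k d F
    · obtain ⟨f, c, hfc⟩ := hstr S h8.1 h8.2
      exact ⟨f, fun _ _ => ⟨c, hfc⟩⟩
    · exact ⟨hne.some, fun h9 h10 => absurd ⟨h9, h10⟩ h8⟩
  choose f hf using hch
  refine hB (Fin n) (EX k d F) SM f
    { hE := fun S hS => card_of_mem_EX hS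
      hX := ?_
      mem := ?_
      con := ?_
      out := ?_
      le := h6 }
  · intro A hA
    rw [hSM, mem_filter, hCP, mem_filter] at hA
    exact hA.1.2.1
  · intro S hS hE
    obtain ⟨c, hc⟩ := hf S hS hE
    exact hc.1
  · intro S S' hS hS' hE hE' hcard h9 h10
    obtain ⟨c, hc⟩ := hf S hS hE
    obtain ⟨c', hc'⟩ := hf S' hS' hE'
    exact (hRUL n k d F hk hF.1 S S' hS hS' (hHE S hE) (by omega) (f S) (f S') c c' hc hc').1 h9 h10
  · intro A hA S hS hE hAS hfA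
    rw [hSM, mem_filter, hCP, mem_filter] at hA
    obtain ⟨⟨-, hAs, v, hv, hcl⟩, -⟩ := hA
    obtain ⟨c, hc⟩ := hf S hS hE
    have h11 := hCLS n k d F hk hF.1 A (hAs.trans hs) v hv hcl S hS (hHE S hE) hAS (f S) c hc
    unfold DD at h11
    rw [mem_filter] at h11
    exact h11.2.1 hfA

end Pool.Agent.Helper14.SG
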